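import Mathlib
import Pool.Agent.Helper37.LEmb.Defs
import Pool.Agent.Helper37.LEmb.Defs2
import Pool.Agent.Helper37.LEmb.Approx
import Pool.Agent.Helper37.LEmb.Factor
import Pool.Agent.Helper37.LEmb.Ideal

/-!
# Ideals in L-embedded spaces, and almost contractive factorizations

`LProjOnto`, `LSummand`, `LProjMaps`, `ContractiveKernel`, `Factors`, `annih`, `biannih`, `can`,
`LEmbedded`, `Ideal`, `MapsBiannihOnto` and `FactorsCan` are defined in
`Pool/Agent/Helper37/LEmb/Defs2.lean`; they spell out the definitions of the problem file.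
-/

set_option autoImplicit false
open NormedSpace

namespace Pool.Agent.Results.MP_b17c32_an.AlmostFactorization

open Pool.Agent.Helper37.LEmb

universe u v w

lemma isLEmbedded_of (𝕜 : Type*) [RCLike 𝕜] (X : Type*) [NormedAddCommGroup X] [NormedSpace 𝕜 X]
    (h : LEmbedded 𝕜 X) : IsLEmbedded 𝕜 X := by
  obtain ⟨Q, h1, h2, h3⟩ := h
  exact ⟨Q, ⟨h1, h2⟩, h3⟩

lemma lEmbedded_of (𝕜 : Type*) [RCLike 𝕜] (X : Type*) [NormedAddCommGroup X] [NormedSpace 𝕜 X]
    (h : IsLEmbedded 𝕜 X) : LEmbedded 𝕜 X := by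
  obtain ⟨Q, ⟨h1, h2⟩, h3⟩ := h
  exact ⟨Q, h1, h2, h3⟩

lemma isIdeal_of_ideal {𝕜 : Type*} [RCLike 𝕜] {X : Type*} [NormedAddCommGroup X]
    [NormedSpace 𝕜 X] (W : Submodule 𝕜 X) (h : Ideal W) : IsIdeal W := by
  obtain ⟨P, h1, h2, h3⟩ := h
  have h2' : ‖P‖ ≤ 1 := by
    refine ContinuousLinearMap.opNorm_le_bound _ zero_le_one ?_
    intro f
    rw [one_mul]
    exact h2 f
  have h3' : ∀ f : StrongDual 𝕜 X, P f = 0 ↔ ∀ w ∈ W, f w = 0 := by
    intro f
    have h4 : f ∈ {f | P f = 0} ↔ f ∈ annih W := by rw [h3]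
    exact h4
  exact ⟨P, h1, h2', h3'⟩

/-- (1) A closed subspace `W` of an L-embedded Banach space `X` which is an ideal in `X` is
L-embedded, and every L-projection `Q` of the bidual of `X` onto `X` maps the second annihilator of
`W` onto `W`. (2) More generally, a Banach space `W` is L-embedded as soon as for every `n` its
canonical embedding into the bidual is `R ∘ S` with `S` from `W` to an L-embedded space `X n`, of
norm at most `1 + 1/(n+1)`, and `R` a contraction from `X n` to the bidual. -/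
theorem result :
    (∀ (𝕜 : Type u) [RCLike 𝕜] (X : Type v) [NormedAddCommGroup X] [NormedSpace 𝕜 X]
      [CompleteSpace X] (W : Submodule 𝕜 X),
      LEmbedded 𝕜 X → IsClosed (W : Set X) → Ideal W → LEmbedded 𝕜 W ∧ MapsBiannihOnto W) ∧
    ∀ (𝕜 : Type u) [RCLike 𝕜] (W : Type v) [NormedAddCommGroup W] [NormedSpace 𝕜 W]
      [CompleteSpace W] (X : ℕ → Type w) [∀ n, NormedAddCommGroup (X n)]
      [∀ n, NormedSpace 𝕜 (X n)],
      (∀ n : ℕ, LEmbedded 𝕜 (X n) ∧ FactorsCan 𝕜 W (X n) (1 / ((n : ℝ) + 1))) →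
      LEmbedded 𝕜 W := by
  constructor
  · intro 𝕜 _ X _ _ _ W hX hW hI
    have hc : CompleteSpace W := hW.completeSpace_coe
    have hI' := isIdeal_of_ideal W hI
    have h1 : IsLEmbedded 𝕜 W := isLEmbedded_of_isIdeal W (isLEmbedded_of 𝕜 X hX) hI'
    refine ⟨lEmbedded_of 𝕜 W h1, ?_⟩
    rintro Q ⟨hQ1, hQ2, hQ3⟩
    exact image_biannihilator W Q ⟨⟨hQ1, hQ2⟩, hQ3⟩ hI' h1
  · intro 𝕜 _ W _ _ _ X _ _ h
    refine lEmbedded_of 𝕜 W (isLEmbedded_of_factor ?_)
    intro δ hδ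
    obtain ⟨n, hn⟩ := exists_nat_one_div_lt hδ
    obtain ⟨hX, S, R, hS, hR, hRS⟩ := h n
    obtain ⟨Q, hQ⟩ := isLEmbedded_of 𝕜 (X n) hX
    obtain ⟨hQL, hQX, hQr⟩ := hQ.spec
    refine factor_family S R ?_ δ hδ ?_ hR Q hQL hQX hQr
    · intro w g
      exact congrArg (fun Φ : StrongDual 𝕜 (StrongDual 𝕜 W) => Φ g) (hRS w)
    · intro w
      refine (hS w).trans (mul_le_mul_of_nonneg_right ?_ (norm_nonneg w))
      linarith

end Pool.Agent.Results.MP_b17c32_an.AlmostFactorization
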